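import Pool.Agent.K1H88.DP.Stm

/-! Project DP, piece SCALE: Minkowski's theorem for the inverse of the ideal `(x, y)`. -/

set_option autoImplicit false

namespace Pool.Agent.K1H59.DP

open Pool.Agent.K1H88.DP Module NumberField MeasureTheory
open scoped nonZeroDivisors NNReal ENNReal

section
variable {F : Type} [Field F] [NumberField F]

theorem prod_places (g : (F →+* ℂ) → ℝ) (hg : ∀ σ, g (ComplexEmbedding.conjugate σ) = g σ) :
    ∏ w : InfinitePlace F, g w.embedding ^ w.mult = ∏ σ, g σ := by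
  classical
  rw [← Finset.prod_fiberwise Finset.univ InfinitePlace.mk g]
  refine Finset.prod_congr rfl (fun w _ => ?_)
  have h1 : ∀ φ ∈ (Finset.univ.filter fun φ : F →+* ℂ => InfinitePlace.mk φ = w),
      g φ = g w.embedding := by
    intro φ hφ
    have h := (Finset.mem_filter.1 hφ).2
    have h2 : InfinitePlace.mk φ = InfinitePlace.mk w.embedding := by
      rw [h, InfinitePlace.mk_embedding]
    rcases InfinitePlace.mk_eq_iff.1 h2 with h3 | h3
    · rw [h3]
    · rw [← h3, hg]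
  rw [Finset.prod_congr rfl h1, Finset.prod_const, InfinitePlace.card_filter_mk_eq]

theorem prod_norm_eq (e : F) : ∏ σ : F →+* ℂ, ‖σ e‖ = |((Algebra.norm ℚ e : ℚ) : ℝ)| := by
  have h1 := InfinitePlace.prod_eq_abs_norm e
  have h2 := prod_places (F := F) (fun σ => ‖σ e‖) (fun σ => by
    change ‖(starRingEnd ℂ) (σ e)‖ = ‖σ e‖
    exact RCLike.norm_conj _)
  rw [← h2]
  rw [Rat.cast_abs] at h1
  rw [← h1]
  refine Finset.prod_congr rfl (fun w _ => ?_)
  rw [InfinitePlace.norm_embedding_eq]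

/-- the fractional ideal `(x, y)` -/
noncomputable def II (x y : F) : FractionalIdeal (𝓞 F)⁰ F :=
  FractionalIdeal.spanSingleton (𝓞 F)⁰ x + FractionalIdeal.spanSingleton (𝓞 F)⁰ y

theorem II_mul (e x y : F) :
    II (e * x) (e * y) = FractionalIdeal.spanSingleton (𝓞 F)⁰ e * II x y := by
  unfold II
  rw [mul_add, FractionalIdeal.spanSingleton_mul_spanSingleton,
    FractionalIdeal.spanSingleton_mul_spanSingleton]

theorem mem_II_left (x y : F) : x ∈ II x y := by
  unfold II
  rw [← FractionalIdeal.sup_eq_add]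
  exact (le_sup_left : FractionalIdeal.spanSingleton (𝓞 F)⁰ x ≤ _)
    (FractionalIdeal.mem_spanSingleton_self (𝓞 F)⁰ x)

theorem mem_II_right (x y : F) : y ∈ II x y := by
  unfold II
  rw [← FractionalIdeal.sup_eq_add]
  exact (le_sup_right : FractionalIdeal.spanSingleton (𝓞 F)⁰ y ≤ _)
    (FractionalIdeal.mem_spanSingleton_self (𝓞 F)⁰ y)

omit [NumberField F] in
theorem integral_of_mem_one {z : F} (h : z ∈ (1 : FractionalIdeal (𝓞 F)⁰ F)) :
    IsIntegral ℤ z := by
  obtain ⟨t, rfl⟩ := (FractionalIdeal.mem_one_iff (𝓞 F)⁰).1 h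
  exact RingOfIntegers.isIntegral_coe t

/-- the constant -/
noncomputable def A0 (F : Type) [Field F] [NumberField F] : ℝ≥0 := by
  classical
  exact (volume (ZSpan.fundamentalDomain (mixedEmbedding.latticeBasis F)) *
    (2 : ℝ≥0∞) ^ (finrank ℝ (mixedEmbedding.mixedSpace F))).toNNReal

theorem mink_eq (J : (FractionalIdeal (𝓞 F)⁰ F)ˣ) :
    mixedEmbedding.minkowskiBound F J =
      ENNReal.ofReal (FractionalIdeal.absNorm J.1) * (A0 F : ℝ≥0∞) := by
  classical
  have h1 : (A0 F : ℝ≥0∞) = volume (ZSpan.fundamentalDomain (mixedEmbedding.latticeBasis F)) *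
      (2 : ℝ≥0∞) ^ (finrank ℝ (mixedEmbedding.mixedSpace F)) := by
    unfold A0
    refine ENNReal.coe_toNNReal ?_
    refine ENNReal.mul_ne_top ?_ (ENNReal.pow_ne_top (by norm_num))
    exact (ZSpan.fundamentalDomain_isBounded _).measure_lt_top.ne
  rw [h1, ← mul_assoc, ← mixedEmbedding.volume_fundamentalDomain_fractionalIdealLatticeBasis]
  rfl

end

/-- **SCALE** -/
theorem t_SCALE (hI : S_IDEAL) : S_SCALE := by
  classical
  intro F _ _
  set n := finrank ℚ F with hn
  have hn0 : 0 < n := finrank_pos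
  set C0 : ℝ := A0 F + 1 with hC0
  have hC01 : 1 ≤ C0 := by
    have : (0 : ℝ) ≤ A0 F := NNReal.coe_nonneg _
    linarith
  have hC00 : 0 < C0 := by linarith
  have hCn : C0 ≤ C0 ^ n := le_self_pow₀ hC01 hn0.ne'
  refine ⟨C0 ^ n, hC01.trans hCn, fun x y hxy r hr hrc => ?_⟩
  have hc := hI F x y hxy
  change cont F x y * (FractionalIdeal.absNorm (II x y) : ℝ) = 1 at hc
  set c := cont F x y with hcdef
  have hNn : (0 : ℝ) ≤ (FractionalIdeal.absNorm (II x y) : ℝ) := by
    exact_mod_cast FractionalIdeal.absNorm_nonneg (II x y)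
  have hc0 : 0 < c := by
    by_contra h
    have h1 : c * (FractionalIdeal.absNorm (II x y) : ℝ) ≤ 0 :=
      mul_nonpos_of_nonpos_of_nonneg (not_lt.1 h) hNn
    linarith
  have hI0 : II x y ≠ 0 := by
    intro h
    rw [h, map_zero, Rat.cast_zero, mul_zero] at hc
    exact zero_ne_one hc
  set J : (FractionalIdeal (𝓞 F)⁰ F)ˣ := (Units.mk0 (II x y) hI0)⁻¹ with hJ
  have hJ1 : (J : FractionalIdeal (𝓞 F)⁰ F) = (II x y)⁻¹ := by
    rw [hJ, Units.val_inv_eq_inv_val, Units.val_mk0]
  have hJn : ((FractionalIdeal.absNorm (J : FractionalIdeal (𝓞 F)⁰ F) : ℚ) : ℝ) = c := by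
    rw [hJ1, map_inv₀, Rat.cast_inv]
    have : (FractionalIdeal.absNorm (II x y) : ℝ) ≠ 0 := by
      intro h
      rw [h, mul_zero] at hc
      exact zero_ne_one hc
    field_simp
    linarith
  -- the sizes
  set P : ℝ := ∏ τ, r τ with hP
  have hP0 : 0 < P := Finset.prod_pos fun τ _ => hr τ
  set R : ℝ := (c * P) ^ ((n : ℝ)⁻¹) with hR
  have hR0 : 0 < R := Real.rpow_pos_of_pos (mul_pos hc0 hP0) _
  have hRn : R ^ n = c * P := by
    rw [hR, Real.rpow_inv_natCast_pow (mul_pos hc0 hP0).le hn0.ne']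
  set f : InfinitePlace F → ℝ≥0 := fun w => Real.toNNReal (C0 * R / r w.embedding) with hf
  have hfw : ∀ w, ((f w : ℝ≥0) : ℝ) = C0 * R / r w.embedding := fun w =>
    Real.coe_toNNReal _ (by have := hr w.embedding; positivity)
  have hprod : ∏ w, (f w) ^ w.mult = Real.toNNReal (C0 ^ n * c) := by
    apply NNReal.eq
    rw [Real.coe_toNNReal _ (by positivity), NNReal.coe_prod]
    have h1 : ∀ w : InfinitePlace F, ((f w ^ w.mult : ℝ≥0) : ℝ) =
        (fun σ => C0 * R / r σ) w.embedding ^ w.mult := by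
      intro w
      rw [NNReal.coe_pow, hfw]
    rw [Finset.prod_congr rfl (fun w _ => h1 w),
      prod_places (fun σ => C0 * R / r σ) (fun σ => by simp only [hrc])]
    rw [Finset.prod_div_distrib, Finset.prod_const, Finset.card_univ, ← hP,
      NumberField.Embeddings.card F ℂ, ← hn, mul_pow, hRn]
    field_simp
  have hlt : mixedEmbedding.minkowskiBound F J < volume (mixedEmbedding.convexBodyLT F f) := by
    rw [mink_eq, mixedEmbedding.convexBodyLT_volume]
    rw [hprod, hJn]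
    change _ < (mixedEmbedding.convexBodyLTFactor F : ℝ≥0∞) * ENNReal.ofReal (C0 ^ n * c)
    have h2 : ENNReal.ofReal c * (A0 F : ℝ≥0∞) = ENNReal.ofReal (c * A0 F) := by
      rw [ENNReal.ofReal_mul hc0.le, ENNReal.ofReal_coe_nnreal]
    rw [h2]
    have h3 : ENNReal.ofReal (c * A0 F) < ENNReal.ofReal (C0 ^ n * c) := by
      rw [ENNReal.ofReal_lt_ofReal_iff (by positivity)]
      have : (A0 F : ℝ) < C0 ^ n := by
        have : (A0 F : ℝ) < C0 := by rw [hC0]; linarith
        linarith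
      nlinarith
    refine lt_of_lt_of_le h3 ?_
    have h4 : (1 : ℝ≥0∞) ≤ (mixedEmbedding.convexBodyLTFactor F : ℝ≥0∞) := by
      exact_mod_cast mixedEmbedding.one_le_convexBodyLTFactor F
    calc ENNReal.ofReal (C0 ^ n * c) = 1 * ENNReal.ofReal (C0 ^ n * c) := (one_mul _).symm
      _ ≤ _ := mul_le_mul_left h4 _
  obtain ⟨e, heJ, he0, hew⟩ := mixedEmbedding.exists_ne_zero_mem_ideal_lt F J hlt
  rw [hJ1] at heJ
  have hmem := (FractionalIdeal.mem_inv_iff hI0).1 heJ
  have hσ : ∀ σ : F →+* ℂ, ‖σ e‖ * r σ ≤ C0 * R := by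
    intro σ
    have h1 := hew (InfinitePlace.mk σ)
    rw [hfw, InfinitePlace.apply] at h1
    have h2 : r (InfinitePlace.mk σ).embedding = r σ := by
      rcases InfinitePlace.embedding_mk_eq σ with h | h
      · rw [h]
      · rw [h, hrc]
    rw [h2, lt_div_iff₀ (hr σ)] at h1
    exact h1.le
  have hσn : ∀ σ : F →+* ℂ, (‖σ e‖ * r σ) ^ n ≤ C0 ^ n * (c * P) := by
    intro σ
    calc (‖σ e‖ * r σ) ^ n ≤ (C0 * R) ^ n :=
          pow_le_pow_left₀ (mul_nonneg (norm_nonneg _) (hr σ).le) (hσ σ) n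
      _ = C0 ^ n * (c * P) := by rw [mul_pow, hRn]
  refine ⟨e, he0, integral_of_mem_one (hmem x (mem_II_left x y)),
    integral_of_mem_one (hmem y (mem_II_right x y)), fun σ => ?_, ?_⟩
  · refine (hσn σ).trans ?_
    refine mul_le_mul_of_nonneg_right ?_ (by positivity)
    exact pow_le_pow_left₀ hC00.le hCn n
  · have h1 := hI F (e * x) (e * y) (hxy.imp (fun h => mul_ne_zero he0 h) (fun h => mul_ne_zero he0 h))
    change cont F (e * x) (e * y) * (FractionalIdeal.absNorm (II (e * x) (e * y)) : ℝ) = 1 at h1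
    rw [II_mul, map_mul, FractionalIdeal.absNorm_span_singleton, Rat.cast_mul, Rat.cast_abs,
      ← prod_norm_eq] at h1
    have h2 : ∏ σ : F →+* ℂ, ‖σ e‖ ≤ C0 ^ n * c := by
      have h3 : ∏ σ : F →+* ℂ, (‖σ e‖ * r σ) ≤ ∏ σ : F →+* ℂ, (C0 * R) :=
        Finset.prod_le_prod (fun σ _ => mul_nonneg (norm_nonneg _) (hr σ).le) (fun σ _ => hσ σ)
      rw [Finset.prod_mul_distrib, Finset.prod_const, Finset.card_univ,
        NumberField.Embeddings.card F ℂ, ← hn, mul_pow, hRn, ← hP, ← mul_assoc] at h3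
      exact le_of_mul_le_mul_right h3 hP0
    have h4 : 0 < cont F (e * x) (e * y) := by
      by_contra h
      have h5 : cont F (e * x) (e * y) * ((∏ σ : F →+* ℂ, ‖σ e‖) *
          (FractionalIdeal.absNorm (II x y) : ℝ)) ≤ 0 :=
        mul_nonpos_of_nonpos_of_nonneg (not_lt.1 h)
          (mul_nonneg (Finset.prod_nonneg fun σ _ => norm_nonneg _) hNn)
      linarith
    calc (1 : ℝ) = cont F (e * x) (e * y) * ((∏ σ : F →+* ℂ, ‖σ e‖) *
          (FractionalIdeal.absNorm (II x y) : ℝ)) := h1.symm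
      _ ≤ cont F (e * x) (e * y) * ((C0 ^ n * c) *
          (FractionalIdeal.absNorm (II x y) : ℝ)) := by gcongr
      _ = C0 ^ n * cont F (e * x) (e * y) *
          (c * (FractionalIdeal.absNorm (II x y) : ℝ)) := by ring
      _ = C0 ^ n * cont F (e * x) (e * y) := by rw [hc, mul_one]

end Pool.Agent.K1H59.DP
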